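import Pool.Agent.H71.PW.Fin

/-!
If the distributivity number `𝔥` is greater than `ℵ₁`, then the least number `𝔭𝔞𝔯_ω` of Borel
partitions of `[ω]^ω` without a common almost homogeneous set is `min 𝔟 𝔰`; hence
`min 𝔟 𝔰 ≤ 𝔞_Borel`, and `𝔞_Borel = 𝔞_closed` if moreover `min 𝔞 𝔡 ≤ min 𝔟 𝔰`.
-/

namespace Pool.Agent.Results.MP_0306d0_lc.BorelPartitions

open Pool.Agent.H60.AD Pool.Agent.H60.BS Cardinal

/-- **Main result.** If `ℵ₁ < 𝔥` then `𝔭𝔞𝔯_ω = min 𝔟 𝔰 ≤ 𝔞_Borel`, and `𝔞_Borel = 𝔞_closed` if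
`min 𝔞 𝔡 ≤ min 𝔟 𝔰`. -/
theorem result (h : ℵ₁ < hCard) :
    parCard = min bCard sCard ∧ min bCard sCard ≤ aBorel ∧
      (min aCard dCard ≤ min bCard sCard → aBorel = aClosed) :=
  Pool.Agent.H71.PW.main h

end Pool.Agent.Results.MP_0306d0_lc.BorelPartitions
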