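import Pool.Agent.H60.BS.Main

/-!
If the bounding number and the splitting number are `ℵ₁`, then `𝔞_Borel = ℵ₁` if and only if
`𝔞_closed = ℵ₁`; in particular `𝔞_Borel = 𝔞_closed` if moreover `𝔞_closed ≤ ℵ₂` or `𝔠 ≤ ℵ₂`.
-/

namespace Pool.Agent.Results.MP_0306d0_lc.BoundingSplitting

open Pool.Agent.H60.AD Pool.Agent.H60.BS Cardinal

/-- **Main result.** If `𝔟 = 𝔰 = ℵ₁`, then a family of `ℵ₁` Borel sets with mad union can be
replaced by a family of `ℵ₁` closed sets with mad union. -/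
theorem result (hb : bCard = ℵ₁) (hs : sCard = ℵ₁) :
    (aBorel = ℵ₁ ↔ aClosed = ℵ₁) ∧ ((aClosed ≤ ℵ_ 2 ∨ (𝔠 : Cardinal.{0}) ≤ ℵ_ 2) → aBorel = aClosed) :=
  ⟨main2 hb hs, fun h => h.elim (main3 hb hs) (main4 hb hs)⟩

end Pool.Agent.Results.MP_0306d0_lc.BoundingSplitting
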