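import Pool.Agent.H60.AD.Lower
import Pool.Agent.H60.AD.Upper

/-!
The distributivity number `𝔥`, and more precisely the least number `𝔭𝔞𝔯_ω` of Borel partitions of
`[ω]^ω` without a common almost homogeneous set, is a lower bound for `𝔞_Borel`; moreover
`𝔞_closed ≤ max 𝔞_Borel 𝔡`. Hence `𝔞_Borel = 𝔞_closed` unless `𝔭𝔞𝔯_ω < min 𝔞 𝔡`.
-/

namespace Pool.Agent.Results.MP_0306d0_lc.HLeBorel

open Pool.Agent.H60.AD

theorem hCard_le_parCard : hCard ≤ parCard := by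
  obtain ⟨κ, 𝒜, hκ, hB, hmad⟩ := borel_nonempty
  obtain ⟨𝓡₀, h1, h2, h3⟩ := parCard_le hB hmad
  have hne : {κ : Cardinal.{0} | ∃ 𝓡 : Set (Set (ℕ → Bool)), Cardinal.mk 𝓡 = κ ∧
    (∀ R ∈ 𝓡, @MeasurableSet (ℕ → Bool) (borel (ℕ → Bool)) R) ∧
    ∀ W : Set ℕ, W.Infinite → ∃ R ∈ 𝓡, ¬ AlmostHomog R W}.Nonempty := ⟨_, 𝓡₀, rfl, h2, h3⟩
  refine le_csInf hne ?_
  rintro _ ⟨𝓡, rfl, hR, hW⟩
  obtain ⟨R, hRm, _⟩ := hW Set.univ Set.infinite_univ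
  exact hCard_le hR hW ⟨R, hRm⟩

theorem parCard_le_aBorel : parCard ≤ aBorel := by
  refine le_csInf borel_nonempty ?_
  rintro _ ⟨𝒜, rfl, hB, hmad⟩
  obtain ⟨𝓡₀, h1, h2, h3⟩ := parCard_le hB hmad
  have h4 : parCard ≤ Cardinal.mk 𝓡₀ := csInf_le' ⟨𝓡₀, rfl, h2, h3⟩
  exact h4.trans h1

/-- **Main result.** `𝔥 ≤ 𝔭𝔞𝔯_ω ≤ 𝔞_Borel` and `𝔞_closed ≤ max 𝔞_Borel 𝔡`; consequently
`𝔞_Borel = 𝔞_closed` unless `𝔭𝔞𝔯_ω < min 𝔞 𝔡`, in particular if `𝔥 = 𝔞` or `𝔥 = 𝔡`. -/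
theorem result :
    hCard ≤ parCard ∧ parCard ≤ aBorel ∧ aClosed ≤ max aBorel dCard ∧
      (min aCard dCard ≤ parCard → aBorel = aClosed) := by
  refine ⟨hCard_le_parCard, parCard_le_aBorel, aClosed_le_max, fun h => ?_⟩
  refine le_antisymm aBorel_le_aClosed ?_
  rcases min_le_iff.1 h with h | h
  · exact (aClosed_le_aCard.trans h).trans parCard_le_aBorel
  · refine aClosed_le_max.trans (max_le le_rfl (h.trans parCard_le_aBorel))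

end Pool.Agent.Results.MP_0306d0_lc.HLeBorel
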