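import Pool.Agent.H60.AD.UltraBound

/-!
For every nonprincipal ultrafilter `U` on `ω`, `min 𝔟 π𝔭(U) ≤ 𝔞_Borel`.
-/

namespace Pool.Agent.Results.MP_0306d0_lc.UltrafilterBound

open Pool.Agent.H60.AD

theorem parCard_le_aBorel : parCard ≤ aBorel := by
  refine le_csInf borel_nonempty ?_
  rintro _ ⟨𝒜, rfl, hB, hmad⟩
  obtain ⟨𝓡₀, h1, h2, h3⟩ := parCard_le hB hmad
  have h4 : parCard ≤ Cardinal.mk 𝓡₀ := csInf_le' ⟨𝓡₀, rfl, h2, h3⟩
  exact h4.trans h1

theorem min_le_parCard (U : Ultrafilter ℕ) (hU : ∀ A : Set ℕ, A.Finite → A ∉ U) :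
    min bCard (pipCard U) ≤ parCard := by
  obtain ⟨κ, 𝒜, hκ, hB, hmad⟩ := borel_nonempty
  obtain ⟨𝓡₀, h1, h2, h3⟩ := parCard_le hB hmad
  have hne : {κ : Cardinal.{0} | ∃ 𝓡 : Set (Set (ℕ → Bool)), Cardinal.mk 𝓡 = κ ∧
    (∀ R ∈ 𝓡, @MeasurableSet (ℕ → Bool) (borel (ℕ → Bool)) R) ∧
    ∀ W : Set ℕ, W.Infinite → ∃ R ∈ 𝓡, ¬ AlmostHomog R W}.Nonempty := ⟨_, 𝓡₀, rfl, h2, h3⟩
  refine le_csInf hne ?_
  rintro _ ⟨𝓡, rfl, hR, hW⟩
  exact min_le_of_family hU hR hW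

/-- **Main result.** For every nonprincipal ultrafilter `U` on the natural numbers, the minimum of
`𝔟` and `π𝔭(U)` is at most the least number of Borel sets whose union is a mad family. -/
theorem result (U : Ultrafilter ℕ) (hU : ∀ A : Set ℕ, A.Finite → A ∉ U) :
    min bCard (pipCard U) ≤ aBorel ∧
      (min aCard dCard ≤ min bCard (pipCard U) → aBorel = aClosed) := by
  have h0 := (min_le_parCard U hU).trans parCard_le_aBorel
  refine ⟨h0, fun h => le_antisymm aBorel_le_aClosed ?_⟩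
  rcases min_le_iff.1 h with h | h
  · exact (aClosed_le_aCard.trans h).trans h0
  · exact aClosed_le_max.trans (max_le le_rfl (h.trans h0))

end Pool.Agent.Results.MP_0306d0_lc.UltrafilterBound
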